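import Mathlib

/-!
# [H51 AG Pp] If the solvable group `T` is generated by elements of order dividing `p` and all `p`-subgroups of `T` are abelian then
the derived group of `T` is a `p'`-group

PROOF by induction on `card T`. If `T = 1` nothing to do. Let `V ≠ 1` be a normal abelian subgroup of `T` contained in the derived group
(the last non trivial term of the derived series; if the derived group is trivial there is nothing to do). The set `V_{p'}` of the
elements of `V` of order prime to `p` is a normal subgroup of `T`. If `V_{p'} ≠ 1` apply the induction hypothesis to `T / V_{p'}` (its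
`p`-subgroups are images of `p`-subgroups of `T`: a `p`-subgroup lies in a Sylow subgroup, and the images of the Sylow subgroups of `T`
are those of the quotient): the order of `T' = ` (order of `(T/V_{p'})'`) * `|V_{p'}|` is prime to `p`. If `V_{p'} = 1`: `V` is a normal
abelian `p`-group. `V` lies in every Sylow `p`-subgroup of `T`, these are abelian and contain the generators: `V` is central. By
induction `T' / V` is a `p'`-group. So `T' = V × H`, `H` the set of elements of `T'` of order prime to `p` (Schur - Zassenhaus with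
central kernel), `H` is normal in `T`. `T / H`: `V H / H` is a `p`-group and `(T / H) / (V H / H) = T / T'` is an abelian group generated
by elements of order dividing `p`, a `p`-group. So `T / H` is a `p`-group, an image of a Sylow `p`-subgroup of `T`, abelian, so
`T' ≤ H`, `V ≤ H`, `V = 1`, contradiction.
-/

set_option autoImplicit false

namespace H51.AG

/-- a non trivial solvable group has a non trivial normal abelian subgroup -/
private theorem pp_abelian {T : Type} [Group T] (hsol : Group.IsSolvable T) (hT : (⊤ : Subgroup T) ≠ ⊥) :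
    ∃ A : Subgroup T, A.Normal ∧ A ≠ ⊥ ∧ ∀ x ∈ A, ∀ y ∈ A, x * y = y * x := by
  classical
  have hex : ∃ n : ℕ, derivedSeries T n = ⊥ := hsol.solvable
  have h0 : Nat.find hex ≠ 0 := by
    intro h
    have h1 := Nat.find_spec hex
    rw [h] at h1
    exact hT h1
  obtain ⟨n, hn⟩ := Nat.exists_eq_succ_of_ne_zero h0
  have h1 : derivedSeries T (n + 1) = ⊥ := by
    have h2 := Nat.find_spec hex
    rw [hn] at h2
    exact h2
  have h3 : derivedSeries T n ≠ ⊥ := Nat.find_min hex (by omega)
  refine ⟨derivedSeries T n, derivedSeries_normal T n, h3, ?_⟩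
  intro x hx y hy
  rw [derivedSeries_succ] at h1
  have h4 := Subgroup.commutator_mem_commutator hx hy
  rw [h1] at h4
  exact commutatorElement_eq_one_iff_mul_comm.1 (Subgroup.mem_bot.1 h4)

/-- the elements of order dividing `r` of a normal abelian subgroup -/
private def pp_sub {T : Type} [Group T] (A : Subgroup T) (hA : ∀ x ∈ A, ∀ y ∈ A, x * y = y * x) (r : ℕ) :
    Subgroup T where
  carrier := {x | x ∈ A ∧ x ^ r = 1}
  one_mem' := ⟨A.one_mem, one_pow r⟩
  mul_mem' := by
    intro x y hx hy
    refine ⟨A.mul_mem hx.1 hy.1, ?_⟩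
    have hc : Commute x y := hA x hx.1 y hy.1
    rw [hc.mul_pow, hx.2, hy.2, one_mul]
  inv_mem' := by
    intro x hx
    refine ⟨A.inv_mem hx.1, ?_⟩
    rw [inv_pow, hx.2, inv_one]

/-- the transfer: a central `p`-element of the derived group is trivial if the Sylow subgroups are abelian -/
private theorem pp_transfer {T : Type} [Group T] [Finite T] (p : ℕ) (hp : p.Prime)
    (hS : ∀ Q : Subgroup T, IsPGroup p Q → ∀ x ∈ Q, ∀ y ∈ Q, x * y = y * x)
    (x : T) (hx : x ∈ commutator T) (hxc : ∀ y : T, x * y = y * x) (hxp : x ^ p = 1) : x = 1 := by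
  classical
  have hpf : Fact p.Prime := ⟨hp⟩
  let P : Sylow p T := default
  let I : CommGroup (P : Subgroup T) :=
    { (inferInstance : Group (P : Subgroup T)) with
      mul_comm := fun a b => Subtype.ext (hS P P.isPGroup' a a.2 b b.2) }
  have hfi : (P : Subgroup T).FiniteIndex := inferInstance
  have key : ∀ (k : ℕ) (g₀ : T), g₀⁻¹ * x ^ k * g₀ ∈ (P : Subgroup T) → g₀⁻¹ * x ^ k * g₀ = x ^ k := by
    intro k g₀ _
    have hc : Commute x g₀ := hxc g₀
    have hk : x ^ k * g₀ = g₀ * x ^ k := (hc.pow_left k).eq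
    rw [mul_assoc, hk, inv_mul_cancel_left]
  have h1 := MonoidHom.transfer_eq_pow (MonoidHom.id (P : Subgroup T)) x key
  have h2 : MonoidHom.transfer (MonoidHom.id (P : Subgroup T)) x = 1 := by
    have h3 := Abelianization.commutator_subset_ker (MonoidHom.transfer (MonoidHom.id (P : Subgroup T)))
    exact h3 hx
  rw [h2] at h1
  have h4 : x ^ (P : Subgroup T).index = 1 := by
    have h5 := congrArg Subtype.val h1
    exact h5.symm
  have h6 : ¬ p ∣ (P : Subgroup T).index := P.not_dvd_index
  have h7 : orderOf x ∣ p := orderOf_dvd_of_pow_eq_one hxp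
  have h8 : orderOf x ∣ (P : Subgroup T).index := orderOf_dvd_of_pow_eq_one h4
  rcases (Nat.dvd_prime hp).1 h7 with h9 | h9
  · exact orderOf_eq_one_iff.1 h9
  · rw [h9] at h8
    exact absurd h8 h6

private theorem pp_main (p : ℕ) (hp : p.Prime) : ∀ (N : ℕ) (T : Type) [Group T] [Finite T], Nat.card T = N →
    ∀ (_ : Group.IsSolvable T) (L : Set T) (_ : Subgroup.closure L = ⊤) (_ : ∀ x ∈ L, x ^ p = 1)
    (_ : ∀ Q : Subgroup T, IsPGroup p Q → ∀ x ∈ Q, ∀ y ∈ Q, x * y = y * x),
    ¬ p ∣ Nat.card (commutator T) := by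
  intro N
  induction N using Nat.strong_induction_on with
  | _ N ih =>
  intro T _ _ hN hsol L hL hLp hS hdvd
  have hpf : Fact p.Prime := ⟨hp⟩
  obtain ⟨⟨x, hx⟩, hxo⟩ := exists_prime_orderOf_dvd_card' p hdvd
  rw [Subgroup.orderOf_mk] at hxo
  have hx1 : x ≠ 1 := by
    intro h
    rw [h, orderOf_one] at hxo
    exact hp.one_lt.ne hxo
  have hxp : x ^ p = 1 := by
    rw [← hxo]
    exact pow_orderOf_eq_one x
  have htop : (⊤ : Subgroup T) ≠ ⊥ := by
    intro h
    have h1 : x ∈ (⊤ : Subgroup T) := Subgroup.mem_top x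
    rw [h, Subgroup.mem_bot] at h1
    exact hx1 h1
  obtain ⟨A, hAn, hA1, hAc⟩ := pp_abelian hsol htop
  have hAcard : Nat.card A ≠ 1 := by
    intro h
    exact hA1 (Subgroup.card_eq_one.1 h)
  obtain ⟨r, hr, hrd⟩ := Nat.exists_prime_and_dvd hAcard
  have hrf : Fact r.Prime := ⟨hr⟩
  obtain ⟨⟨v, hv⟩, hvo⟩ := exists_prime_orderOf_dvd_card' r hrd
  rw [Subgroup.orderOf_mk] at hvo
  let V : Subgroup T := pp_sub A hAc r
  have hVmem : ∀ y : T, y ∈ V ↔ y ∈ A ∧ y ^ r = 1 := fun y => Iff.rfl
  have hVn : V.Normal := by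
    refine ⟨fun y hy g => ?_⟩
    rw [hVmem] at hy ⊢
    refine ⟨hAn.conj_mem y hy.1 g, ?_⟩
    rw [conj_pow, hy.2, mul_one, mul_inv_cancel]
  have hvV : v ∈ V := by
    rw [hVmem]
    refine ⟨hv, ?_⟩
    rw [← hvo]
    exact pow_orderOf_eq_one v
  have hv1 : v ≠ 1 := by
    intro h
    rw [h, orderOf_one] at hvo
    exact hr.one_lt.ne hvo
  have hVr : IsPGroup r V := by
    intro y
    refine ⟨1, Subtype.ext ?_⟩
    rw [pow_one]
    exact ((hVmem y.1).1 y.2).2
  have hcard : Nat.card (T ⧸ V) < N := by
    rw [← hN]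
    have h1 := Subgroup.card_eq_card_quotient_mul_card_subgroup V
    have h2 : 1 < Nat.card V := by
      rw [Finite.one_lt_card_iff_nontrivial]
      exact ⟨⟨⟨v, hvV⟩, 1, fun h => hv1 (congrArg Subtype.val h)⟩⟩
    have h3 : 0 < Nat.card (T ⧸ V) := Nat.card_pos
    rw [h1]
    nlinarith
  have hsurj := QuotientGroup.mk'_surjective V
  have hquot : ¬ p ∣ Nat.card (commutator (T ⧸ V)) := by
    refine ih _ hcard (T ⧸ V) rfl inferInstance ((QuotientGroup.mk' V) '' L) ?_ ?_ ?_
    · rw [← MonoidHom.map_closure, hL, ← MonoidHom.range_eq_map, MonoidHom.range_eq_top]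
      exact hsurj
    · rintro _ ⟨y, hy, rfl⟩
      rw [← map_pow, hLp y hy, map_one]
    · intro Q hQ a ha b hb
      obtain ⟨R, hR⟩ := hQ.exists_le_sylow
      obtain ⟨P, hP⟩ := Sylow.mapSurjective_surjective hsurj p R
      have h1 : (R : Subgroup (T ⧸ V)) = (P : Subgroup T).map (QuotientGroup.mk' V) := by
        rw [← hP]
        rfl
      have ha1 := hR ha
      have hb1 := hR hb
      rw [h1] at ha1 hb1
      obtain ⟨a', ha', rfl⟩ := ha1
      obtain ⟨b', hb', rfl⟩ := hb1
      rw [← map_mul, hS P P.isPGroup' a' ha' b' hb', map_mul]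
  have hxV : x ∈ V := by
    have h1 : (QuotientGroup.mk' V) x ∈ commutator (T ⧸ V) := by
      have h2 : (commutator T).map (QuotientGroup.mk' V) ≤ commutator (T ⧸ V) := by
        rw [commutator_def, commutator_def, Subgroup.map_commutator]
        exact Subgroup.commutator_mono le_top le_top
      exact h2 (Subgroup.mem_map_of_mem _ hx)
    have h3 : (QuotientGroup.mk' V) x = 1 := by
      by_contra h
      have h4 : ((QuotientGroup.mk' V) x) ^ p = 1 := by
        rw [← map_pow, hxp, map_one]
      have h5 : orderOf ((QuotientGroup.mk' V) x) = p := orderOf_eq_prime h4 h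
      have h6 : orderOf (⟨(QuotientGroup.mk' V) x, h1⟩ : commutator (T ⧸ V)) = p := by
        rw [Subgroup.orderOf_mk]
        exact h5
      have h7 := orderOf_dvd_natCard (⟨(QuotientGroup.mk' V) x, h1⟩ : commutator (T ⧸ V))
      rw [h6] at h7
      exact hquot h7
    have h8 : x ∈ (QuotientGroup.mk' V).ker := h3
    rw [QuotientGroup.ker_mk'] at h8
    exact h8
  by_cases hrp : r = p
  · rw [hrp] at hVr
    have hcent : ∀ y : T, x * y = y * x := by
      have h1 : Subgroup.closure L ≤ Subgroup.centralizer ({x} : Set T) := by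
        rw [Subgroup.closure_le]
        intro y hy
        have hyP : IsPGroup p (Subgroup.zpowers y) := by
          intro z
          refine ⟨1, Subtype.ext ?_⟩
          obtain ⟨k, hk⟩ := Subgroup.mem_zpowers_iff.1 z.2
          rw [pow_one]
          show (z : T) ^ p = 1
          rw [← hk, ← zpow_natCast, ← zpow_mul, mul_comm, zpow_mul, zpow_natCast, hLp y hy, one_zpow]
        have hQ : IsPGroup p (Subgroup.zpowers y ⊔ V : Subgroup T) := IsPGroup.to_sup_of_normal_right hyP hVr
        have h2 := hS _ hQ x ((le_sup_right : V ≤ Subgroup.zpowers y ⊔ V) hxV) y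
          ((le_sup_left : Subgroup.zpowers y ≤ Subgroup.zpowers y ⊔ V) (Subgroup.mem_zpowers y))
        rw [SetLike.mem_coe, Subgroup.mem_centralizer_iff]
        intro z hz
        rw [Set.mem_singleton_iff.1 hz]
        exact h2
      rw [hL] at h1
      intro y
      have h3 := h1 (Subgroup.mem_top y)
      rw [Subgroup.mem_centralizer_iff] at h3
      exact h3 x (Set.mem_singleton x)
    exact hx1 (pp_transfer p hp hS x hx hcent hxp)
  · have h1 : x ^ r = 1 := ((hVmem x).1 hxV).2
    have h2 : orderOf x ∣ r := orderOf_dvd_of_pow_eq_one h1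
    rw [hxo] at h2
    exact hrp ((Nat.prime_dvd_prime_iff_eq hp hr).1 h2).symm

theorem not_dvd_derived {T : Type} [Group T] [Finite T] (p : ℕ) (hp : p.Prime) (hsol : Group.IsSolvable T)
    (L : Set T) (hL : Subgroup.closure L = ⊤) (hLp : ∀ x ∈ L, x ^ p = 1)
    (hS : ∀ Q : Subgroup T, IsPGroup p Q → ∀ x ∈ Q, ∀ y ∈ Q, x * y = y * x) :
    ¬ p ∣ Nat.card (commutator T) :=
  pp_main p hp _ T rfl hsol L hL hLp hS

end H51.AG
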