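import Pool.Agent.H88.LB.Spec
import Pool.Agent.H38.BG.PIdx

/-!
# [H51 AG Sq] In a transitive group of squarefree order all elements of least index have the same prime order

PROOF. (0) Every element of least index has prime order and `ind h = (q - 1) * (n - f) / q`, `q` its order, `f` its number of fixed
points (library: H38.BG / H88.LB: `pidx`, elements of least index have prime order). Suppose `x, x'` have least index and orders
`q < q'`. `n - f = |supp|`: `(q - 1) q' (n - f) = (q' - 1) q (n - f')` (*). Hence `f' > 0`.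
(1) `N := commutator G` is cyclic, of order prime to its index (Mathlib `IsZGroup.of_squarefree`, `isCyclic_commutator`,
`coprime_commutator_index`), so every subgroup of `N` is normal in `G`. A normal subgroup of `G` which fixes a point is trivial.
(2) If `y ≠ 1` has prime order `r` and fixes a point `i` (stabiliser `H`), then `r` does not divide `card N` (otherwise `y ∈ N`, and
`zpowers y` is normal), `H ⊓ N = ⊥` (normal, fixes a point), so `H` is abelian (it embeds into `G / N`); a conjugate of `y` in `H` is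
equal to `y` (same image in `G / N`), so the fixed points of `y` are the points `g i`, `g ∈ C_G(y)`, their number is
`|C_G(y)| / |H| = n / a`, `a := [G : C_G(y)]`. By Schur - Zassenhaus / Sylow in `N ⊔ zpowers y` (or by counting: the conjugacy class
of `y` is contained in `y N`), `G = N C_G(y)`, so `a = [N : C_N(y)]` divides `card N`, and every prime `s ∣ a` is `≡ 1 mod r` (`y` acts
on the subgroup of order `s` of `N` as an automorphism of order `r`). `a > 1` since `y` is not `1` (a central `y` with a fixed point is `1`).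
(3) If `x` has no fixed points: `a' (q' - q) = (q' - 1) q` by (*), but a prime `s ∣ a'` is `≥ q' + 1`: it divides neither `q' - 1` nor `q`.
(4) If `x` has fixed points: `(q - 1) q' (a - 1) a' = (q' - 1) q (a' - 1) a` by (*); a prime `s ∣ a` is `≡ 1 mod q` and divides `card N`,
so it does not divide `q - 1`, it is `≠ q'` (by (2) `q'` does not divide `card N`), it does not divide `a - 1`: so `s ∣ a'`; `a` is
squarefree, so `a ∣ a'`, `a ≤ a'`, which contradicts (*) because `(q - 1) q' < (q' - 1) q`.
-/

set_option autoImplicit false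

namespace H51.AG

open H38.ML.Spec H88.LB

/-- conjugation on a cyclic normal subgroup is a power map -/
private theorem sq_pow {G : Type*} [Group G] (N : Subgroup G) [N.Normal] [IsCyclic N] (g : G) :
    ∃ m : ℤ, ∀ z ∈ N, g * z * g⁻¹ = z ^ m := by
  obtain ⟨m, hm⟩ := MonoidHom.map_cyclic ((MulAut.conjNormal g : MulAut N).toMonoidHom)
  refine ⟨m, fun z hz => ?_⟩
  have := congrArg Subtype.val (hm ⟨z, hz⟩)
  simpa using this

/-- a subgroup of order `r` prime in a group of squarefree order: its index is prime to `r` -/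
private theorem sq_idx {G : Type*} [Group G] [Finite G] (hsq : Squarefree (Nat.card G))
    (H : Subgroup G) (s : ℕ) (hs : s.Prime) (h : s ∣ Nat.card H) : ¬ s ∣ H.index := by
  intro h2
  have h3 : s * s ∣ Nat.card G := by
    rw [← H.card_mul_index]
    exact mul_dvd_mul h h2
  have := hsq s h3
  exact hs.one_lt.ne' (Nat.isUnit_iff.1 this)

/-- the order of an element prime to the index of a normal subgroup: it is in the subgroup -/
private theorem sq_mem {G : Type*} [Group G] (N : Subgroup G) [N.Normal] (y : G)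
    (h : (orderOf y).Coprime N.index) : y ∈ N := by
  have h1 : y ^ N.index ∈ N := N.pow_index_mem y
  have h2 : y ^ orderOf y ∈ N := by
    rw [pow_orderOf_eq_one]
    exact N.one_mem
  have h3 := Nat.gcd_eq_gcd_ab (orderOf y) N.index
  rw [h] at h3
  have h4 : y = (y ^ orderOf y) ^ (Nat.gcdA (orderOf y) N.index) *
      (y ^ N.index) ^ (Nat.gcdB (orderOf y) N.index) := by
    rw [← zpow_natCast y, ← zpow_natCast y, ← zpow_mul, ← zpow_mul, ← zpow_add, ← h3]
    simp
  rw [h4]
  exact N.mul_mem (N.zpow_mem h2 _) (N.zpow_mem h1 _)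

/-- `G = N C(y)` in the form: the index of `C(y) ⊓ N` in `C(y)` is the index of `N` -/
private theorem sq_frat {G : Type*} [Group G] [Finite G] (hsq : Squarefree (Nat.card G))
    (y : G) (r : ℕ) (hr : r.Prime) (hy : orderOf y = r) (hN : ¬ r ∣ Nat.card (commutator G)) :
    (commutator G).relIndex (Subgroup.centralizer {y}) = (commutator G).index := by
  have : Fact r.Prime := ⟨hr⟩
  have hc : Nat.card (Subgroup.zpowers y) = r := by rw [Nat.card_zpowers, hy]
  have hP1 : IsPGroup r (Subgroup.zpowers y) := IsPGroup.of_card (n := 1) (by rw [hc, pow_one])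
  have hP2 : ¬ r ∣ (Subgroup.zpowers y).index :=
    sq_idx hsq (Subgroup.zpowers y) r hr (by rw [hc])
  set P : Sylow r G := hP1.toSylow hP2 with hP
  have hnor : (commutator G ⊔ Subgroup.zpowers y).Normal := by
    refine ⟨fun m hm g => ?_⟩
    have h1 : g * m * g⁻¹ = g * m * g⁻¹ * m⁻¹ * m := by group
    rw [h1]
    refine Subgroup.mul_mem _ (Subgroup.mem_sup_left ?_) hm
    rw [← commutatorElement_def]
    exact Subgroup.commutator_mem_commutator (Subgroup.mem_top g) (Subgroup.mem_top m)
  have hPM : (P : Subgroup G) ≤ commutator G ⊔ Subgroup.zpowers y := by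
    rw [hP, IsPGroup.toSylow_coe]
    exact le_sup_right
  have hfr := P.normalizer_sup_eq_top' hPM
  have hle : Subgroup.normalizer (P : Set G) ≤ Subgroup.centralizer {y} := by
    intro g hg
    rw [Subgroup.mem_centralizer_singleton_iff]
    have h1 : g * y * g⁻¹ ∈ Subgroup.zpowers y := by
      have h2 := (Subgroup.mem_normalizer_iff.1 hg y).1
      have h3 : y ∈ (P : Subgroup G) := by
        rw [hP, IsPGroup.toSylow_coe]
        exact Subgroup.mem_zpowers y
      have h4 := h2 h3
      rw [hP] at h4
      exact h4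
    have h5 : g * y * g⁻¹ * y⁻¹ ∈ Subgroup.zpowers y :=
      Subgroup.mul_mem _ h1 (Subgroup.inv_mem _ (Subgroup.mem_zpowers y))
    have h6 : g * y * g⁻¹ * y⁻¹ ∈ commutator G := by
      rw [← commutatorElement_def]
      exact Subgroup.commutator_mem_commutator (Subgroup.mem_top g) (Subgroup.mem_top y)
    have h7 : g * y * g⁻¹ * y⁻¹ = 1 := by
      have h8 : Disjoint (Subgroup.zpowers y) (commutator G) := by
        refine Subgroup.disjoint_of_coprime_natCard ?_
        rw [hc]
        exact (Nat.Prime.coprime_iff_not_dvd hr).2 hN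
      exact Subgroup.disjoint_def.1 h8 h5 h6
    rw [mul_inv_eq_one] at h7
    rw [mul_inv_eq_iff_eq_mul] at h7
    exact h7
  have htop : Subgroup.centralizer {y} ⊔ commutator G = ⊤ := by
    rw [eq_top_iff, ← hfr]
    refine sup_le (hle.trans le_sup_left) (sup_le le_sup_right ?_)
    rw [Subgroup.zpowers_le]
    refine Subgroup.mem_sup_left ?_
    rw [Subgroup.mem_centralizer_singleton_iff]
  rw [← Subgroup.relIndex_sup_right, htop, Subgroup.relIndex_top_right]

/-- the primes which divide the number of conjugates of `y` -/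
private theorem sq_primes {G : Type*} [Group G] [Finite G] (hsq : Squarefree (Nat.card G))
    [IsCyclic (commutator G)]
    (y : G) (r : ℕ) (hr : r.Prime) (hy : orderOf y = r) (hN : ¬ r ∣ Nat.card (commutator G))
    (s : ℕ) (hs : s.Prime) (h : s ∣ (Subgroup.centralizer {y}).index) :
    s ∣ Nat.card (commutator G) ∧ r ∣ s - 1 := by
  have hfr := sq_frat hsq y r hr hy hN
  have hsC : ¬ s ∣ Nat.card (Subgroup.centralizer {y}) := fun h2 =>
    sq_idx hsq _ s hs h2 h
  have hsG : s ∣ Nat.card G := h.trans (Subgroup.index_dvd_card _)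
  have h1 : s ∣ Nat.card (commutator G) := by
    by_contra h2
    rw [← (commutator G).card_mul_index] at hsG
    have h3 := (hs.dvd_mul.1 hsG).resolve_left h2
    rw [← hfr] at h3
    exact hsC (h3.trans (Subgroup.relIndex_dvd_card _ _))
  refine ⟨h1, ?_⟩
  have : Fact s.Prime := ⟨hs⟩
  obtain ⟨t, ht⟩ := exists_prime_orderOf_dvd_card' s h1
  have ht' : orderOf (t : G) = s := by rw [Subgroup.orderOf_coe, ht]
  obtain ⟨m, hm⟩ := sq_pow (commutator G) y
  have hm1 := hm t t.2
  have hpw : ∀ k : ℕ, y ^ k * (t : G) * (y ^ k)⁻¹ = (t : G) ^ (m ^ k) := by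
    intro k
    induction k with
    | zero => simp
    | succ k ih =>
      have h2 : y ^ (k + 1) * (t : G) * (y ^ (k + 1))⁻¹ = y * (y ^ k * t * (y ^ k)⁻¹) * y⁻¹ := by
        rw [pow_succ']
        group
      rw [h2, ih, hm _ ((commutator G).zpow_mem t.2 _), ← zpow_mul, pow_succ]
  have h3 := hpw r
  rw [← hy, pow_orderOf_eq_one, hy, one_mul, inv_one, mul_one] at h3
  have h4 : ((s : ℕ) : ℤ) ∣ m ^ r - 1 := by
    rw [← ht', orderOf_dvd_iff_zpow_eq_one, zpow_sub, zpow_one, ← h3, mul_inv_cancel]
  have h5 : ¬ ((s : ℕ) : ℤ) ∣ m - 1 := by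
    intro h6
    rw [← ht', orderOf_dvd_iff_zpow_eq_one, zpow_sub, zpow_one, ← hm1, mul_inv_eq_one,
      mul_inv_eq_iff_eq_mul] at h6
    apply hsC
    have h7 : (t : G) ∈ Subgroup.centralizer {y} := by
      rw [Subgroup.mem_centralizer_singleton_iff]
      exact h6.symm
    have h8 : Subgroup.zpowers (t : G) ≤ Subgroup.centralizer {y} := by
      rw [Subgroup.zpowers_le]
      exact h7
    have h9 := Subgroup.card_dvd_of_le h8
    rwa [Nat.card_zpowers, ht'] at h9
  -- `m` has order `r` modulo `s`
  have h6 : ((m : ZMod s)) ^ r = 1 := by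
    have := (ZMod.intCast_zmod_eq_zero_iff_dvd (m ^ r - 1) s).2 h4
    push_cast at this
    exact sub_eq_zero.1 this
  have h7 : (m : ZMod s) ≠ 1 := by
    intro h8
    apply h5
    rw [← ZMod.intCast_zmod_eq_zero_iff_dvd]
    push_cast
    rw [h8, sub_self]
  have h8 : orderOf (m : ZMod s) = r := by
    rcases (Nat.dvd_prime hr).1 (orderOf_dvd_of_pow_eq_one h6) with h9 | h9
    · exact absurd (orderOf_eq_one_iff.1 h9) h7
    · exact h9
  have h9 : (m : ZMod s) ^ (s - 1) = 1 := by
    refine ZMod.pow_card_sub_one_eq_one ?_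
    intro h10
    rw [h10, zero_pow hr.ne_zero] at h6
    exact zero_ne_one h6
  rw [← h8]
  exact orderOf_dvd_of_pow_eq_one h9

/-- a point is fixed by an element of a cyclic normal subgroup of a transitive group -/
private theorem sq_fix {n : ℕ} (G : Subgroup (Equiv.Perm (Fin n)))
    (hG : MulAction.IsPretransitive G (Fin n)) (N : Subgroup G) [N.Normal] [IsCyclic N] (z : G)
    (hz : z ∈ N) (i : Fin n) (hi : z • i = i) : z = 1 := by
  apply Subtype.ext
  apply Equiv.ext
  intro j
  obtain ⟨g, rfl⟩ := MulAction.exists_smul_eq G i j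
  obtain ⟨m, hm⟩ := sq_pow N g⁻¹
  have h1 := hm z hz
  have h2 : z ^ m • i = i :=
    Subgroup.zpow_mem (MulAction.stabilizer G i) (show z ∈ MulAction.stabilizer G i from hi) m
  have h3 : z * g = g * z ^ m := by
    rw [← h1]
    group
  change z • g • i = g • i
  rw [← mul_smul, h3, mul_smul, h2]

/-- the number of fixed points of an element of prime order -/
private theorem sq_key {n : ℕ} (G : Subgroup (Equiv.Perm (Fin n)))
    (hG : MulAction.IsPretransitive G (Fin n)) (hsq : Squarefree (Nat.card G)) (y : G) (r : ℕ)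
    (hr : r.Prime) (hy : orderOf y = r) (i : Fin n) (hi : y • i = i) :
    ¬ r ∣ Nat.card (commutator G) ∧ ∃ a : ℕ, 1 < a ∧
      Nat.card {x : Fin n // (y : Equiv.Perm (Fin n)) x = x} * a = n ∧ Squarefree a ∧
      ∀ s : ℕ, s.Prime → s ∣ a → s ∣ Nat.card (commutator G) ∧ r ∣ s - 1 := by
  have hy1 : y ≠ 1 := by
    rintro rfl
    rw [orderOf_one] at hy
    exact hr.one_lt.ne hy
  have hz : IsZGroup G := IsZGroup.of_squarefree hsq
  have hcy : IsCyclic (commutator G) := IsZGroup.isCyclic_commutator G
  have hco := IsZGroup.coprime_commutator_index G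
  have hN : ¬ r ∣ Nat.card (commutator G) := by
    intro h
    have h2 : (orderOf y).Coprime (commutator G).index := by
      rw [hy]
      exact Nat.Coprime.coprime_dvd_left h hco
    exact hy1 (sq_fix G hG (commutator G) y (sq_mem _ y h2) i hi)
  have hcent : ∀ g : G, (g * y * g⁻¹) • i = i → g * y = y * g := by
    intro g hg
    have h1 : (g * y * g⁻¹ * y⁻¹) • i = i := by
      rw [mul_smul]
      have h2 : y⁻¹ • i = i := by
        rw [inv_smul_eq_iff, hi]
      rw [h2, hg]
    have h3 : g * y * g⁻¹ * y⁻¹ ∈ commutator G := by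
      rw [← commutatorElement_def]
      exact Subgroup.commutator_mem_commutator (Subgroup.mem_top g) (Subgroup.mem_top y)
    have h4 := sq_fix G hG (commutator G) _ h3 i h1
    rw [mul_inv_eq_one, mul_inv_eq_iff_eq_mul] at h4
    exact h4
  refine ⟨hN, (Subgroup.centralizer {y}).index, ?_, ?_, ?_, fun s hs h =>
    sq_primes hsq y r hr hy hN s hs h⟩
  · have h0 : (Subgroup.centralizer {y}).index ≠ 0 := Subgroup.index_ne_zero_of_finite
    have h1 : (Subgroup.centralizer {y}).index ≠ 1 := by
      intro h1
      rw [Subgroup.index_eq_one] at h1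
      apply hy1
      apply Subtype.ext
      apply Equiv.ext
      intro j
      obtain ⟨g, rfl⟩ := MulAction.exists_smul_eq G i j
      have h2 : g ∈ Subgroup.centralizer {y} := by
        rw [h1]
        exact Subgroup.mem_top g
      rw [Subgroup.mem_centralizer_singleton_iff] at h2
      change y • g • i = g • i
      rw [← mul_smul, ← h2, mul_smul, hi]
    omega
  · have hle : MulAction.stabilizer G i ≤ Subgroup.centralizer {y} := by
      intro h hh
      rw [Subgroup.mem_centralizer_singleton_iff]
      apply hcent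
      have hh' : h • i = i := hh
      rw [mul_smul, mul_smul]
      have : h⁻¹ • i = i := by rw [inv_smul_eq_iff, hh']
      rw [this, hi, hh']
    have h1 := Subgroup.relIndex_mul_index hle
    rw [MulAction.index_stabilizer_of_transitive, Nat.card_fin] at h1
    refine Eq.trans ?_ h1
    congr 1
    have h2 : (MulAction.stabilizer G i).relIndex (Subgroup.centralizer {y}) =
        (MulAction.stabilizer (Subgroup.centralizer {y}) i).index := rfl
    rw [h2, MulAction.index_stabilizer, ← Nat.card_coe_set_eq]
    refine Nat.card_congr (Equiv.subtypeEquivRight fun x => ?_)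
    constructor
    · intro hx
      obtain ⟨g, rfl⟩ := MulAction.exists_smul_eq G i x
      have h3 : y • g • i = g • i := hx
      have h4 : g⁻¹ * y = y * g⁻¹ := by
        apply hcent
        rw [inv_inv, mul_smul, mul_smul, h3, inv_smul_smul]
      refine ⟨⟨g, ?_⟩, rfl⟩
      rw [Subgroup.mem_centralizer_singleton_iff]
      rw [inv_mul_eq_iff_eq_mul, ← mul_assoc, eq_mul_inv_iff_mul_eq] at h4
      exact h4.symm
    · rintro ⟨⟨g, hg⟩, rfl⟩
      rw [Subgroup.mem_centralizer_singleton_iff] at hg
      change y • g • i = g • i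
      rw [← mul_smul, ← hg, mul_smul, hi]
  · exact hsq.squarefree_of_dvd (Subgroup.index_dvd_card _)

/-- Burnside for a group of prime order (compare `pidx_burnside` in H38/BG/PIdx.lean) -/
private theorem sq_burnside {n : ℕ} (g : Equiv.Perm (Fin n)) (hq : (orderOf g).Prime) :
    H38.ML.orbs (Subgroup.zpowers g) * orderOf g =
      n + (orderOf g - 1) * Nat.card {x : Fin n // g x = x} := by
  classical
  have : Fintype (Subgroup.zpowers g) := Fintype.ofFinite _
  have : Fintype (Quotient (MulAction.orbitRel (Subgroup.zpowers g) (Fin n))) :=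
    Fintype.ofFinite _
  have h := MulAction.sum_card_fixedBy_eq_card_orbits_mul_card_group (Subgroup.zpowers g) (Fin n)
  have hc : Fintype.card (Subgroup.zpowers g) = orderOf g := by
    rw [← Nat.card_eq_fintype_card, Nat.card_zpowers]
  have ho : H38.ML.orbs (Subgroup.zpowers g) =
      Fintype.card (Quotient (MulAction.orbitRel (Subgroup.zpowers g) (Fin n))) := by
    unfold H38.ML.orbs
    rw [← Nat.card_eq_fintype_card]
  rw [ho, ← hc, ← h, ← Finset.add_sum_erase _ _ (Finset.mem_univ (1 : Subgroup.zpowers g))]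
  congr 1
  · have : MulAction.fixedBy (Fin n) (1 : Subgroup.zpowers g) = Set.univ := by
      ext x
      simp
    rw [← Nat.card_eq_fintype_card, this, Nat.card_univ, Nat.card_fin]
  · have h1 : ∀ a ∈ (Finset.univ : Finset (Subgroup.zpowers g)).erase 1,
        Fintype.card (MulAction.fixedBy (Fin n) a) = Nat.card {x : Fin n // g x = x} := by
      intro a ha
      rw [← Nat.card_eq_fintype_card]
      have ha1 : a ≠ 1 := Finset.ne_of_mem_erase ha
      obtain ⟨a, haz⟩ := a
      obtain ⟨k, rfl⟩ := Subgroup.mem_zpowers_iff.1 haz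
      have hk : ¬ ((orderOf g : ℕ) : ℤ) ∣ k := by
        intro hd
        apply ha1
        apply Subtype.ext
        exact orderOf_dvd_iff_zpow_eq_one.1 hd
      have hco : IsCoprime k ((orderOf g : ℕ) : ℤ) :=
        ((Prime.coprime_iff_not_dvd (Nat.prime_iff_prime_int.1 hq)).2 hk).symm
      obtain ⟨u, v, huv⟩ := hco
      refine Nat.card_congr (Equiv.subtypeEquivRight fun x => ?_)
      constructor
      · intro hx
        have hx' : (g ^ k) x = x := hx
        have h2 : g = (g ^ k) ^ u * (g ^ (orderOf g)) ^ v := by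
          rw [← zpow_natCast g, ← zpow_mul, ← zpow_mul, ← zpow_add]
          conv_lhs => rw [← zpow_one g, ← huv]
          congr 1
          ring
        rw [h2, pow_orderOf_eq_one, one_zpow, mul_one]
        exact Equiv.Perm.zpow_apply_eq_self_of_apply_eq_self hx' _
      · intro hx
        change (g ^ k) x = x
        exact Equiv.Perm.zpow_apply_eq_self_of_apply_eq_self hx _
    rw [Finset.sum_congr rfl h1, Finset.sum_const, smul_eq_mul,
      Finset.card_erase_of_mem (Finset.mem_univ _), Finset.card_univ]

/-- `q * ind g = (q - 1) * (n - F)` -/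
private theorem sq_ind {n : ℕ} (g : Equiv.Perm (Fin n)) (hq : (orderOf g).Prime) :
    orderOf g * ind g = (orderOf g - 1) * (n - Nat.card {x : Fin n // g x = x}) ∧
      Nat.card {x : Fin n // g x = x} ≤ n := by
  have hb := sq_burnside g hq
  have hFn : Nat.card {x : Fin n // g x = x} ≤ n := by
    have := Nat.card_le_card_of_injective
      (fun x : {x : Fin n // g x = x} => (x : Fin n)) Subtype.val_injective
    rwa [Nat.card_fin] at this
  have horb : H38.ML.orbs (Subgroup.zpowers g) ≤ n := by
    have h2 := Nat.card_le_card_of_surjective _ (Quotient.mk_surjective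
      (s := MulAction.orbitRel (Subgroup.zpowers g) (Fin n)))
    rw [Nat.card_fin] at h2
    exact h2
  refine ⟨?_, hFn⟩
  change orderOf g * (n - H38.ML.orbs (Subgroup.zpowers g)) = _
  have hq1 : 1 ≤ orderOf g := hq.one_lt.le
  zify [horb, hFn, hq1]
  zify [hq1] at hb
  linear_combination -hb

/-- the contradiction for the orders `q < q'` -/
private theorem sq_lt {n : ℕ} (hn : 2 ≤ n) (G : Subgroup (Equiv.Perm (Fin n)))
    (hG : MulAction.IsPretransitive G (Fin n)) (hsq : Squarefree (Nat.card G)) (x x' : G)
    (hq : (orderOf x).Prime) (hq' : (orderOf x').Prime)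
    (he : ind (x : Equiv.Perm (Fin n)) = ind (x' : Equiv.Perm (Fin n)))
    (hlt : orderOf x < orderOf x') : False := by
  have h1 := sq_ind (x : Equiv.Perm (Fin n)) (by rw [Subgroup.orderOf_coe]; exact hq)
  have h2 := sq_ind (x' : Equiv.Perm (Fin n)) (by rw [Subgroup.orderOf_coe]; exact hq')
  rw [Subgroup.orderOf_coe] at h1 h2
  set q := orderOf x with hqd
  set q' := orderOf x' with hqd'
  set f := Nat.card {z : Fin n // (x : Equiv.Perm (Fin n)) z = z} with hf
  set f' := Nat.card {z : Fin n // (x' : Equiv.Perm (Fin n)) z = z} with hf'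
  obtain ⟨h1, hfn⟩ := h1
  obtain ⟨h2, hfn'⟩ := h2
  have hq1 : 1 < q := hq.one_lt
  have hq1' : 1 < q' := hq'.one_lt
  rw [he] at h1
  set m := ind (x' : Equiv.Perm (Fin n)) with hm
  have hkey : (q - 1) * q' * (n - f) = (q' - 1) * q * (n - f') := by
    calc (q - 1) * q' * (n - f) = q' * ((q - 1) * (n - f)) := by ring
      _ = q * (q' * m) := by rw [← h1]; ring
      _ = (q' - 1) * q * (n - f') := by rw [h2]; ring
  have hqq : (q - 1) * q' < (q' - 1) * q := by
    zify [hq1.le, hq1'.le]
    nlinarith
  have hpos : 0 < (q' - 1) * q := by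
    have : 0 < q' - 1 := by omega
    positivity
  -- `f' > 0`
  have hf'0 : 0 < f' := by
    by_contra h0
    have h0' : f' = 0 := by omega
    rw [h0', Nat.sub_zero] at hkey
    have h3 : (q - 1) * q' * (n - f) ≤ (q - 1) * q' * n := Nat.mul_le_mul_left _ (by omega)
    have h4 : (q - 1) * q' * n < (q' - 1) * q * n := Nat.mul_lt_mul_of_pos_right hqq (by omega)
    omega
  obtain ⟨⟨i', hi'⟩⟩ : Nonempty {z : Fin n // (x' : Equiv.Perm (Fin n)) z = z} := by
    rw [← not_isEmpty_iff]
    intro hemp
    have : f' = 0 := by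
      rw [hf']
      exact Nat.card_of_isEmpty
    omega
  obtain ⟨hN', a', ha1', han', hsf', hpr'⟩ := sq_key G hG hsq x' q' hq' rfl i' hi'
  rw [← hf'] at han'
  rcases Nat.eq_zero_or_pos f with hf0 | hf0
  · -- no fixed points of `x`
    rw [hf0, Nat.sub_zero] at hkey
    have h3 : (q - 1) * q' * a' = (q' - 1) * q * (a' - 1) := by
      have h4 : n - f' = f' * (a' - 1) := by
        rw [← han', Nat.mul_sub, mul_one]
      rw [h4] at hkey
      have h5 : f' * ((q - 1) * q' * a') = f' * ((q' - 1) * q * (a' - 1)) := by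
        calc f' * ((q - 1) * q' * a') = (q - 1) * q' * (f' * a') := by ring
          _ = f' * ((q' - 1) * q * (a' - 1)) := by rw [han', hkey]; ring
      exact Nat.eq_of_mul_eq_mul_left hf'0 h5
    obtain ⟨s, hs, hsa⟩ := Nat.exists_prime_and_dvd (show a' ≠ 1 by omega)
    obtain ⟨-, hs2⟩ := hpr' s hs hsa
    have hs3 : q' ≤ s - 1 := Nat.le_of_dvd (by have := hs.one_lt; omega) hs2
    have h6 : s ∣ (q' - 1) * q := by
      have h7 : s ∣ (q' - 1) * q * (a' - 1) := by
        rw [← h3]
        exact hsa.mul_left _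
      rcases hs.dvd_mul.1 h7 with h8 | h8
      · exact h8
      · exfalso
        have h9 : s ∣ a' - (a' - 1) := Nat.dvd_sub hsa h8
        rw [Nat.sub_sub_self (by omega)] at h9
        exact hs.one_lt.ne' (Nat.dvd_one.1 h9)
    rcases hs.dvd_mul.1 h6 with h7 | h7
    · have := Nat.le_of_dvd (by omega) h7
      omega
    · have := Nat.le_of_dvd (by omega) h7
      omega
  · obtain ⟨⟨i, hi⟩⟩ : Nonempty {z : Fin n // (x : Equiv.Perm (Fin n)) z = z} := by
      rw [← not_isEmpty_iff]
      intro hemp
      have : f = 0 := by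
        rw [hf]
        exact Nat.card_of_isEmpty
      omega
    obtain ⟨hN, a, ha1, han, hsf, hpr⟩ := sq_key G hG hsq x q hq rfl i hi
    rw [← hf] at han
    have h3 : (q - 1) * q' * ((a - 1) * a') = (q' - 1) * q * ((a' - 1) * a) := by
      have h4 : n - f = f * (a - 1) := by
        rw [← han, Nat.mul_sub, mul_one]
      have h4' : n - f' = f' * (a' - 1) := by
        rw [← han', Nat.mul_sub, mul_one]
      rw [h4, h4'] at hkey
      have h5 : n * ((q - 1) * q' * ((a - 1) * a')) = n * ((q' - 1) * q * ((a' - 1) * a)) := by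
        calc n * ((q - 1) * q' * ((a - 1) * a')) =
              (q - 1) * q' * (f * (a - 1)) * (a * a') := by rw [← han]; ring
          _ = n * ((q' - 1) * q * ((a' - 1) * a)) := by rw [hkey, ← han']; ring
      exact Nat.eq_of_mul_eq_mul_left (by omega) h5
    have hdvd : ∀ s : ℕ, s.Prime → s ∣ a → s ∣ a' := by
      intro s hs hsa
      obtain ⟨hs1, hs2⟩ := hpr s hs hsa
      have hs3 : q ≤ s - 1 := Nat.le_of_dvd (by have := hs.one_lt; omega) hs2
      have h6 : s ∣ (q - 1) * q' * ((a - 1) * a') := by
        rw [h3]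
        exact (hsa.mul_left _).mul_left _
      rcases hs.dvd_mul.1 h6 with h7 | h7
      · exfalso
        rcases hs.dvd_mul.1 h7 with h8 | h8
        · have := Nat.le_of_dvd (by omega) h8
          omega
        · have h9 := (Nat.prime_dvd_prime_iff_eq hs hq').1 h8
          rw [h9] at hs1
          exact hN' hs1
      · rcases hs.dvd_mul.1 h7 with h8 | h8
        · exfalso
          have h9 : s ∣ a - (a - 1) := Nat.dvd_sub hsa h8
          rw [Nat.sub_sub_self (by omega)] at h9
          exact hs.one_lt.ne' (Nat.dvd_one.1 h9)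
        · exact h8
    have hle : a ≤ a' := by
      refine Nat.le_of_dvd (by omega) ?_
      have hsub : a.primeFactors ⊆ a'.primeFactors := by
        intro s hs
        rw [Nat.mem_primeFactors] at hs ⊢
        exact ⟨hs.1, hdvd s hs.1 hs.2.1, by omega⟩
      calc a = ∏ p ∈ a.primeFactors, p := (Nat.prod_primeFactors_of_squarefree hsf).symm
        _ ∣ ∏ p ∈ a'.primeFactors, p := Finset.prod_dvd_prod_of_subset _ _ _ hsub
        _ ∣ a' := Nat.prod_primeFactors_dvd a'
    have h6 : (a - 1) * a' ≤ (a' - 1) * a := by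
      zify [ha1.le, ha1'.le]
      nlinarith
    have h7 : 0 < (a' - 1) * a := by
      have : 0 < a' - 1 := by omega
      positivity
    have h8 : (q - 1) * q' * ((a - 1) * a') < (q' - 1) * q * ((a' - 1) * a) :=
      calc (q - 1) * q' * ((a - 1) * a') ≤ (q - 1) * q' * ((a' - 1) * a) := Nat.mul_le_mul_left _ h6
        _ < (q' - 1) * q * ((a' - 1) * a) := Nat.mul_lt_mul_of_pos_right hqq h7
    omega

theorem sq_prime (n : ℕ) (hn : 2 ≤ n) (G : Subgroup (Equiv.Perm (Fin n)))
    (hG : MulAction.IsPretransitive G (Fin n)) (hsq : Squarefree (Nat.card G)) :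
    ∃ p : ℕ, p.Prime ∧ ∀ h ∈ Lst G, h ^ p = 1 := by
  obtain ⟨-, ⟨g, hg, hgi⟩, -, -, -⟩ := H38.BG.pidx_pos hn G hG
  have hp := H38.ML.prime_of_least G g hg hgi
  refine ⟨orderOf g, hp, ?_⟩
  rintro h ⟨hh, hhi⟩
  have hp' := H38.ML.prime_of_least G h hh hhi
  have hgi' : ind (g : Equiv.Perm (Fin n)) = indG G := hgi
  have he : ind (g : Equiv.Perm (Fin n)) = ind (h : Equiv.Perm (Fin n)) := by rw [hgi', hhi]
  rcases lt_trichotomy (orderOf g) (orderOf h) with h1 | h1 | h1
  · exact (sq_lt hn G hG hsq g h hp hp' he h1).elim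
  · rw [h1, pow_orderOf_eq_one]
  · exact (sq_lt hn G hG hsq h g hp' hp he.symm h1).elim

end H51.AG
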