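import Pool.Agent.H71.GT.Tow
import Pool.Agent.H51.AG.Pp
import Pool.Agent.H51.AG.Sq
import Pool.Agent.H88.LB.Final

/-!
# [H51 AG Fin] THEOREM A: the lower bound if `T` is solvable, the elements of least index have exponent `p`, and the relevant Sylow
subgroups are abelian; the lower bound for all transitive groups of squarefree order
-/

set_option autoImplicit false

noncomputable section

namespace H51.AG

open H38.ML.Spec H88.LB

theorem closure_normal (n : ℕ) (hn : 2 ≤ n) (G : Subgroup (Equiv.Perm (Fin n)))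
    (hG : MulAction.IsPretransitive G (Fin n)) : (Subgroup.closure (Lst G)).Normal := by
  obtain ⟨-, -, -, hcj, -⟩ := H38.BG.pidx_pos hn G hG
  constructor
  intro x hx g
  induction hx using Subgroup.closure_induction with
  | mem y hy =>
    refine Subgroup.subset_closure ⟨?_, hcj y g hy.1 hy.2⟩
    intro h
    apply hy.1
    have h1 : g * y = g := by
      have := congrArg (· * g) h
      simpa using this
    simpa using h1
  | one => simp
  | mul a b _ _ ha hb =>
    have := Subgroup.mul_mem _ ha hb
    convert this using 1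
    group
  | inv a _ ha =>
    have := Subgroup.inv_mem _ ha
    convert this using 1
    group

theorem low_ag (n : ℕ) (hn : 2 ≤ n) (G : Subgroup (Equiv.Perm (Fin n)))
    (hG : MulAction.IsPretransitive G (Fin n)) (p : ℕ) (hp : p.Prime) (hL : ∀ h ∈ Lst G, h ^ p = 1)
    (hsol : Group.IsSolvable (Subgroup.closure (Lst G)))
    (hP : ∀ Q : Subgroup G, Q ≤ Subgroup.closure (Lst G) → IsPGroup p Q → IsMulCommutative Q)
    (hQ : ∀ q : ℕ, q.Prime →
      q ∣ Nat.card (⁅Subgroup.closure (Lst G), Subgroup.closure (Lst G)⁆ : Subgroup G) →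
      ∀ Q : Subgroup G, IsPGroup q Q → IsMulCommutative Q) : Low G := by
  obtain ⟨T, hTd⟩ : ∃ T : Subgroup G, T = Subgroup.closure (Lst G) := ⟨_, rfl⟩
  have hTn : T.Normal := hTd ▸ closure_normal n hn G hG
  rw [← hTd] at hsol hP hQ
  have hcard : Nat.card (⁅T, T⁆ : Subgroup G) = Nat.card (commutator T) := by
    rw [← Subgroup.map_subtype_commutator T]
    exact Subgroup.card_map_of_injective T.subtype_injective
  have hpn : ¬ p ∣ Nat.card (⁅T, T⁆ : Subgroup G) := by
    rw [hcard]
    refine not_dvd_derived p hp hsol {x : T | (x : G) ∈ Lst G} ?_ ?_ ?_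
    · refine Subgroup.map_injective T.subtype_injective ?_
      rw [← MonoidHom.range_eq_map, Subgroup.range_subtype, MonoidHom.map_closure]
      rw [hTd]
      refine congrArg Subgroup.closure ?_
      ext x
      constructor
      · rintro ⟨y, hy, rfl⟩
        exact hy
      · intro hx
        exact ⟨⟨x, Subgroup.subset_closure hx⟩, hx, rfl⟩
    · intro x hx
      exact Subtype.ext (hL x hx)
    · intro Q hQp x hx y hy
      have h1 : IsPGroup p (Q.map T.subtype) := hQp.map T.subtype
      have h2 := hP (Q.map T.subtype) (by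
        rintro _ ⟨z, -, rfl⟩
        exact z.2) h1
      have h3 := h2.is_comm.comm (⟨x, x, hx, rfl⟩ : Q.map T.subtype) ⟨y, y, hy, rfl⟩
      have h4 := congrArg Subtype.val h3
      exact Subtype.ext h4
  refine low_ab n hn G hG T ⁅T, T⁆ hTn inferInstance le_rfl ?_ ?_
  · refine H71.GT.goodTower_comm T hsol fun q hq hqd Q hQp x hx y hy => ?_
    have h3 := (hQ q hq hqd Q hQp).is_comm.comm (⟨x, hx⟩ : Q) ⟨y, hy⟩
    exact congrArg Subtype.val h3
  · intro h hh
    refine ⟨hTd ▸ Subgroup.subset_closure hh, ?_⟩
    have h1 : orderOf h ∣ p := orderOf_dvd_of_pow_eq_one (hL h hh)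
    exact Nat.Coprime.coprime_dvd_left h1 ((Nat.Prime.coprime_iff_not_dvd hp).2 hpn)

/-- the lower bound for all transitive groups of squarefree order -/
theorem low_sq (n : ℕ) (hn : 2 ≤ n) (G : Subgroup (Equiv.Perm (Fin n)))
    (hG : MulAction.IsPretransitive G (Fin n)) (hsq : Squarefree (Nat.card G)) : Low G := by
  obtain ⟨p, hp, hL⟩ := sq_prime n hn G hG hsq
  have hcom : ∀ q : ℕ, q.Prime → ∀ Q : Subgroup G, IsPGroup q Q → IsMulCommutative Q := by
    intro q hq Q hQ
    have : Fact q.Prime := ⟨hq⟩
    obtain ⟨k, hk⟩ := (IsPGroup.iff_card).1 hQ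
    have h1 : q ^ k ∣ Nat.card G := hk ▸ Subgroup.card_subgroup_dvd_card Q
    have h2 : k ≤ 1 := by
      by_contra h
      have h3 : q * q ∣ Nat.card G := by
        refine dvd_trans ?_ h1
        rw [← pow_two]
        exact pow_dvd_pow q (by omega)
      exact hq.one_lt.ne' (Nat.isUnit_iff.1 (hsq q h3))
    have h4 : IsCyclic Q := by
      rcases Nat.le_one_iff_eq_zero_or_eq_one.1 h2 with rfl | rfl
      · have h5 : Nat.card Q = 1 := by simpa using hk
        have : Subsingleton Q := (Nat.card_eq_one_iff_unique.1 h5).1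
        exact isCyclic_of_subsingleton
      · exact isCyclic_of_prime_card (by simpa using hk : Nat.card Q = q)
    infer_instance
  have hz : IsZGroup G := IsZGroup.of_squarefree hsq
  refine low_ag n hn G hG p hp hL ?_ (fun Q _ hQ => hcom p hp Q hQ) fun q hq _ Q hQ => hcom q hq Q hQ
  infer_instance

end H51.AG
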