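import Mathlib

/-!
# [H51 AG Cf] No fixed points in the `q`-part of the derived subgroup of a metabelian group with abelian `q`-subgroups

`M` is a finite group, `Y` the derived group of `M`, an abelian `q`-group; all `q`-subgroups of `M` are abelian. `M₁ ≥ Y` is the
subgroup such that `M₁ / Y` is the set of elements of `M / Y` of order prime to `q`.

PROOF (transfer). Let `y ∈ Y` be centralised by `M₁`. Every `x ∈ M` is a product of a power of `x ^ m` and a power of `x ^ (q ^ a)`,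
where the order of `x` is `q ^ a m`, `m` prime to `q`. The second is in `M₁`; the first generates a `q`-group, together with the
normal `q`-group `Y` again a `q`-group, which is abelian. So `y` is central in `M`. Let `S` be a Sylow `q`-subgroup, `i` its index.
The transfer `M → S` kills the derived group, and sends the central element `y` to `y ^ i`; `i` is prime to `q`, so `y = 1`.
-/

set_option autoImplicit false

namespace H51.AG

private theorem comm_all {M : Type} [Group M] [Finite M] (q : ℕ) (hq : q.Prime) (hY : IsPGroup q (commutator M))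
    (hS : ∀ Q : Subgroup M, IsPGroup q Q → ∀ x ∈ Q, ∀ y ∈ Q, x * y = y * x) (M₁ : Subgroup M)
    (hM₁ : ∀ x : M, x ∈ M₁ ↔ ∃ n : ℕ, Nat.Coprime n q ∧ x ^ n ∈ commutator M)
    (y : M) (hy : y ∈ commutator M) (hc : ∀ m ∈ M₁, m * y = y * m) (x : M) : x * y = y * x := by
  obtain ⟨a, m, hm, hx⟩ := Nat.exists_eq_pow_mul_and_not_dvd (n := orderOf x) (orderOf_pos x).ne' q hq.ne_one
  have hmq : Nat.Coprime m q := (Nat.coprime_comm.1 ((Nat.Prime.coprime_iff_not_dvd hq).2 hm))
  have h1 : Commute (x ^ m) y := by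
    have hP : IsPGroup q (Subgroup.zpowers (x ^ m)) := by
      rintro ⟨g, hg⟩
      obtain ⟨z, rfl⟩ := Subgroup.mem_zpowers_iff.1 hg
      refine ⟨a, Subtype.ext ?_⟩
      show ((x ^ m) ^ z) ^ (q ^ a) = 1
      rw [← zpow_natCast ((x ^ m) ^ z), ← zpow_mul, mul_comm z, zpow_mul, zpow_natCast, ← pow_mul, mul_comm m, ← hx,
        pow_orderOf_eq_one, one_zpow]
    have hQ : IsPGroup q (Subgroup.zpowers (x ^ m) ⊔ commutator M : Subgroup M) := hP.to_sup_of_normal_right hY
    exact hS _ hQ _ (Subgroup.mem_sup_left (Subgroup.mem_zpowers _)) _ (Subgroup.mem_sup_right hy)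
  have h2 : Commute (x ^ (q ^ a)) y := by
    refine hc _ ((hM₁ _).2 ⟨m, hmq, ?_⟩)
    rw [← pow_mul, ← hx, pow_orderOf_eq_one]
    exact one_mem _
  have h3 : Nat.Coprime m (q ^ a) := Nat.Coprime.pow_right a hmq
  have h4 : x = (x ^ m) ^ (Nat.gcdA m (q ^ a)) * (x ^ (q ^ a)) ^ (Nat.gcdB m (q ^ a)) := by
    have h5 := Nat.gcd_eq_gcd_ab m (q ^ a)
    rw [h3] at h5
    rw [← zpow_natCast x m, ← zpow_natCast x (q ^ a), ← zpow_mul, ← zpow_mul, ← zpow_add, ← h5]
    simp
  have h6 : Commute x y := by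
    rw [h4]
    exact (h1.zpow_left _).mul_left (h2.zpow_left _)
  exact h6

theorem fix_eq_one {M : Type} [Group M] [Finite M] (q : ℕ) (hq : q.Prime) (hY : IsPGroup q (commutator M))
    (hS : ∀ Q : Subgroup M, IsPGroup q Q → ∀ x ∈ Q, ∀ y ∈ Q, x * y = y * x) (M₁ : Subgroup M) (hYM : commutator M ≤ M₁)
    (hM₁ : ∀ x : M, x ∈ M₁ ↔ ∃ n : ℕ, Nat.Coprime n q ∧ x ^ n ∈ commutator M) :
    ∀ y ∈ commutator M, (∀ m ∈ M₁, m * y = y * m) → y = 1 := by
  intro y hy hc
  have _ := hYM
  have hF : Fact q.Prime := ⟨hq⟩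
  have hcen : ∀ x : M, x * y = y * x := comm_all q hq hY hS M₁ hM₁ y hy hc
  obtain ⟨S⟩ : Nonempty (Sylow q M) := inferInstance
  have hab : commutator (S : Subgroup M) = ⊥ := by
    rw [commutator_def, Subgroup.commutator_eq_bot_iff_le_centralizer]
    intro z _
    rw [Subgroup.mem_centralizer_iff]
    intro w _
    exact Subtype.ext (hS S S.isPGroup' w w.2 z z.2)
  have hkey : ∀ (k : ℕ) (g₀ : M), g₀⁻¹ * y ^ k * g₀ ∈ (S : Subgroup M) → g₀⁻¹ * y ^ k * g₀ = y ^ k := by
    intro k g₀ _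
    have h1 : g₀ * y ^ k = y ^ k * g₀ := (Commute.pow_right (hcen g₀) k)
    rw [mul_assoc, ← h1, ← mul_assoc, inv_mul_cancel, one_mul]
  have h1 := MonoidHom.transfer_eq_pow (H := (S : Subgroup M)) (ϕ := (Abelianization.of : (S : Subgroup M) →* _)) y hkey
  have h2 : MonoidHom.transfer (H := (S : Subgroup M)) (Abelianization.of : (S : Subgroup M) →* _) y = 1 :=
    MonoidHom.mem_ker.1 (Abelianization.commutator_subset_ker _ hy)
  rw [h2] at h1
  have h3 := MonoidHom.mem_ker.2 h1.symm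
  rw [Abelianization.ker_of, hab, Subgroup.mem_bot] at h3
  have h4 : y ^ (S : Subgroup M).index = 1 := congrArg Subtype.val h3
  have h5 : ¬ q ∣ (S : Subgroup M).index := S.not_dvd_index
  obtain ⟨k, hk⟩ := hY ⟨y, hy⟩
  have hk' : y ^ (q ^ k) = 1 := congrArg Subtype.val hk
  have h6 : Nat.Coprime (S : Subgroup M).index (q ^ k) :=
    Nat.Coprime.pow_right k (Nat.coprime_comm.1 ((Nat.Prime.coprime_iff_not_dvd hq).2 h5))
  have h7 : orderOf y ∣ 1 := by
    rw [← h6]
    exact Nat.dvd_gcd (orderOf_dvd_of_pow_eq_one h4) (orderOf_dvd_of_pow_eq_one hk')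
  exact orderOf_eq_one_iff.1 (Nat.dvd_one.1 h7)

end H51.AG
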