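import Pool.Agent.H51.AG.Sz
import Pool.Agent.H51.AG.Cf

/-!
# [H51 AG Key] The derived group `⁅M, M⁆` of a normal subgroup `M` of `G`, if it is a `q`-group, has a complement in `G` when all
`q`-subgroups of `G` are abelian
-/

set_option autoImplicit false

namespace H51.AG

theorem key {G : Type} [Group G] [Finite G] (q : ℕ) (hq : q.Prime) (M : Subgroup G) [M.Normal] (hY : IsPGroup q (⁅M, M⁆ : Subgroup G))
    (hS : ∀ Q : Subgroup G, IsPGroup q Q → ∀ x ∈ Q, ∀ y ∈ Q, x * y = y * x) :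
    ∃ C : Subgroup G, C ⊔ ⁅M, M⁆ = ⊤ ∧ C ⊓ ⁅M, M⁆ = ⊥ := by
  sorry

/-- all `q`-subgroups of a quotient are abelian if those of the group are -/
theorem quot_abelian {G G' : Type} [Group G] [Group G'] [Finite G] (q : ℕ) (hq : q.Prime) (f : G →* G')
    (hf : Function.Surjective f) (hS : ∀ Q : Subgroup G, IsPGroup q Q → ∀ x ∈ Q, ∀ y ∈ Q, x * y = y * x) :
    ∀ Q : Subgroup G', IsPGroup q Q → ∀ x ∈ Q, ∀ y ∈ Q, x * y = y * x := by
  sorry

end H51.AG
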