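import Mathlib

/-!
# [H51 AG Sz] A complement of an abelian normal subgroup `Y` of `G` which is a Hall subgroup of a normal subgroup `M` of `G` with
`C_Y(M) = 1`

PROOF. By Schur - Zassenhaus (`Subgroup.exists_right_complement'_of_coprime`, applied inside `M`) there is `H ≤ M` with
`Y ⊓ H = ⊥`, `Y ⊔ H = M`. `C := normalizer of H in G` (or: stabiliser of `H` for the conjugation action of `G` on the set of
complements of `Y` in `M`, `Subgroup.isComplement'_stabilizer`).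
(a) `C ⊓ Y = ⊥`: for `y ∈ C ⊓ Y`, `h ∈ H` the commutator `y h y⁻¹ h⁻¹` lies in `Y ⊓ H = ⊥`; so `y` commutes with `H` and with
`Y`, so with `M`, so `y = 1`.
(b) `C ⊔ Y = ⊤`: let `g ∈ G`. `H' := g H g⁻¹` is a second complement of `Y` in `M` (both `Y` and `M` are normal in `G`). For
`h ∈ H` let `f h ∈ Y` be the unique element with `f h * h ∈ H'` (it exists since `M = Y H'`). Then
`f (h k) = f h * (h (f k) h⁻¹)` (uniqueness). With `n = card H` (prime to `card Y`) and `z := ∏_{k : H} f k` one gets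
`z = (f h)^n * h z h⁻¹` for all `h`; let `w ∈ Y` be the `n`-th root of `z` (`x ↦ x^n` is bijective on `Y`): `w = f h * h w h⁻¹`, i.e.
`w h w⁻¹ = f h * h`. So `w H w⁻¹ ≤ H'`, equal by cardinality, and `w⁻¹ g ∈ C`.
-/

set_option autoImplicit false

namespace H51.AG

private theorem sz_exists {G : Type} [Group G] [Finite G] (M Y : Subgroup G) [M.Normal] [Y.Normal] (hYM : Y ≤ M)
    (hco : Nat.Coprime (Nat.card Y) (Y.relIndex M)) :
    ∃ H : Subgroup G, H ≤ M ∧ (∀ x, x ∈ Y → x ∈ H → x = 1) ∧ (∀ m ∈ M, ∃ y ∈ Y, ∃ h ∈ H, m = y * h) ∧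
      Nat.Coprime (Nat.card Y) (Nat.card H) := by
  have hcard : Nat.card (Y.subgroupOf M) = Nat.card Y := Nat.card_congr (Subgroup.subgroupOfEquivOfLe hYM).toEquiv
  have hco' : Nat.Coprime (Nat.card (Y.subgroupOf M)) (Y.subgroupOf M).index := by
    rw [hcard]
    exact hco
  obtain ⟨K, hK⟩ := Subgroup.exists_right_complement'_of_coprime hco'
  refine ⟨K.map M.subtype, Subgroup.map_subtype_le K, ?_, ?_, ?_⟩
  · rintro x hx ⟨k, hk, rfl⟩
    have h1 : k ∈ Y.subgroupOf M ⊓ K := ⟨hx, hk⟩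
    rw [hK.disjoint.eq_bot, Subgroup.mem_bot] at h1
    rw [h1]
    rfl
  · intro m hm
    obtain ⟨⟨y, k⟩, h⟩ := hK.2 ⟨m, hm⟩
    refine ⟨((y : M) : G), y.2, ((k : M) : G), ⟨k, k.2, rfl⟩, ?_⟩
    exact (congrArg Subtype.val h).symm
  · have h1 : Nat.card (K.map M.subtype) = Nat.card K :=
      (Nat.card_congr (K.equivMapOfInjective M.subtype M.subtype_injective).toEquiv).symm
    have h2 : (Y.subgroupOf M).index = Nat.card K := hK.symm.index_eq_card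
    rw [h1, ← h2]
    exact hco

private theorem sz_conj {G : Type} [Group G] [Finite G] (M Y H : Subgroup G) [M.Normal] [Y.Normal]
    (hab : ∀ x ∈ Y, ∀ y ∈ Y, x * y = y * x) (hHM : H ≤ M) (hd : ∀ x, x ∈ Y → x ∈ H → x = 1)
    (hs : ∀ m ∈ M, ∃ y ∈ Y, ∃ h ∈ H, m = y * h) (hco : Nat.Coprime (Nat.card Y) (Nat.card H)) (g : G) :
    ∃ w ∈ Y, ∀ h ∈ H, g⁻¹ * w * h * (g⁻¹ * w)⁻¹ ∈ H := by
  classical
  let _ : CommGroup Y := { (inferInstance : Group Y) with mul_comm := fun a b => Subtype.ext (hab a a.2 b b.2) }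
  have : Fintype H := Fintype.ofFinite H
  have hY : Y.Normal := inferInstance
  have hM : M.Normal := inferInstance
  have hex : ∀ h : H, ∃ y : Y, g⁻¹ * ((y : G) * h) * g ∈ H := by
    intro h
    have h1 : g⁻¹ * (h : G) * g ∈ M := by
      have := hM.conj_mem h (hHM h.2) g⁻¹
      rwa [inv_inv] at this
    obtain ⟨y0, hy0, h0, hh0, e⟩ := hs _ h1
    refine ⟨⟨g * y0⁻¹ * g⁻¹, hY.conj_mem _ (Y.inv_mem hy0) g⟩, ?_⟩
    have h2 : g⁻¹ * (g * y0⁻¹ * g⁻¹ * (h : G)) * g = h0 := by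
      have h3 : g⁻¹ * (g * y0⁻¹ * g⁻¹ * (h : G)) * g = y0⁻¹ * (g⁻¹ * (h : G) * g) := by group
      rw [h3, e, inv_mul_cancel_left]
    show g⁻¹ * (g * y0⁻¹ * g⁻¹ * (h : G)) * g ∈ H
    rw [h2]
    exact hh0
  choose f hf using hex
  have huniq : ∀ (y y' : Y) (x : G), g⁻¹ * ((y : G) * x) * g ∈ H → g⁻¹ * ((y' : G) * x) * g ∈ H → y = y' := by
    intro y y' x h1 h2
    have h3 := H.mul_mem h1 (H.inv_mem h2)
    have h4 : g⁻¹ * ((y : G) * x) * g * (g⁻¹ * ((y' : G) * x) * g)⁻¹ = g⁻¹ * ((y : G) * (y' : G)⁻¹) * g := by group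
    rw [h4] at h3
    have h5 : g⁻¹ * ((y : G) * (y' : G)⁻¹) * g ∈ Y := by
      have := hY.conj_mem _ (Y.mul_mem y.2 (Y.inv_mem y'.2)) g⁻¹
      rwa [inv_inv] at this
    have h6 := hd _ h5 h3
    have h7 : (y : G) * (y' : G)⁻¹ = 1 := by
      have h8 : (y : G) * (y' : G)⁻¹ = g * (g⁻¹ * ((y : G) * (y' : G)⁻¹) * g) * g⁻¹ := by group
      rw [h8, h6]
      group
    exact Subtype.ext (mul_inv_eq_one.1 h7)
  obtain ⟨φ, hφ⟩ : ∃ φ : H → Y →* Y, ∀ (h : H) (y : Y), ((φ h y : Y) : G) = (h : G) * y * (h : G)⁻¹ :=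
    ⟨fun h => (MulAut.conjNormal (h : G)).toMonoidHom, fun h y => MulAut.conjNormal_apply _ _⟩
  have hcoc : ∀ h k : H, f (h * k) = f h * φ h (f k) := by
    intro h k
    refine huniq _ _ ((h * k : H) : G) (hf (h * k)) ?_
    have h1 := H.mul_mem (hf h) (hf k)
    have h2 : g⁻¹ * ((f h : G) * h) * g * (g⁻¹ * ((f k : G) * k) * g) =
        g⁻¹ * (((f h * φ h (f k) : Y) : G) * ((h * k : H) : G)) * g := by
      rw [Subgroup.coe_mul, Subgroup.coe_mul, hφ]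
      group
    rw [← h2]
    exact h1
  obtain ⟨z, hz⟩ : ∃ z : Y, z = ∏ k : H, f k := ⟨_, rfl⟩
  have hzh : ∀ h : H, z = f h ^ Nat.card H * φ h z := by
    intro h
    have h1 : ∏ k : H, f (h * k) = ∏ k : H, f k := Equiv.prod_comp (Equiv.mulLeft h) f
    have h2 : ∏ k : H, f (h * k) = ∏ k : H, (f h * φ h (f k)) := Finset.prod_congr rfl fun k _ => hcoc h k
    rw [Finset.prod_mul_distrib, Finset.prod_const, Finset.card_univ, ← map_prod] at h2
    rw [Nat.card_eq_fintype_card, hz, ← h2, h1]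
  have hbij : Function.Bijective (fun y : Y => y ^ Nat.card H) := Nat.Coprime.pow_left_bijective hco
  obtain ⟨w, hw⟩ := hbij.2 z
  have hw' : w ^ Nat.card H = z := hw
  refine ⟨w, w.2, fun h hh => ?_⟩
  have h1 : w = f ⟨h, hh⟩ * φ ⟨h, hh⟩ w := by
    apply hbij.1
    show w ^ Nat.card H = (f ⟨h, hh⟩ * φ ⟨h, hh⟩ w) ^ Nat.card H
    rw [mul_pow, ← map_pow, hw']
    exact hzh ⟨h, hh⟩
  have h2 : (w : G) = f ⟨h, hh⟩ * (h * w * h⁻¹) := by
    have h3 := congrArg Subtype.val h1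
    rw [Subgroup.coe_mul, hφ] at h3
    exact h3
  have h4 : g⁻¹ * (w : G) * h * (g⁻¹ * (w : G))⁻¹ = g⁻¹ * ((f ⟨h, hh⟩ : G) * h) * g := by
    have h5 : (w : G) * h = (f ⟨h, hh⟩ : G) * h * w := by
      have h6 : (w : G) * h = f ⟨h, hh⟩ * (h * w * h⁻¹) * h := congrArg (fun t => t * h) h2
      rw [h6]
      group
    have h7 : g⁻¹ * (w : G) * h * (g⁻¹ * (w : G))⁻¹ = g⁻¹ * ((w : G) * h) * (w : G)⁻¹ * g := by group
    rw [h7, h5]
    group
  rw [h4]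
  exact hf ⟨h, hh⟩

theorem compl_of_hall {G : Type} [Group G] [Finite G] (M Y : Subgroup G) [M.Normal] [Y.Normal] (hYM : Y ≤ M)
    (hab : ∀ x ∈ Y, ∀ y ∈ Y, x * y = y * x) (hco : Nat.Coprime (Nat.card Y) (Y.relIndex M))
    (hfix : ∀ y ∈ Y, (∀ m ∈ M, m * y = y * m) → y = 1) :
    ∃ C : Subgroup G, C ⊔ Y = ⊤ ∧ C ⊓ Y = ⊥ := by
  obtain ⟨H, hHM, hd, hs, hc⟩ := sz_exists M Y hYM hco
  have hY : Y.Normal := inferInstance
  refine ⟨Subgroup.normalizer (H : Set G), ?_, ?_⟩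
  · rw [eq_top_iff]
    intro g _
    obtain ⟨w, hw, h1⟩ := sz_conj M Y H hab hHM hd hs hc g
    have h2 : g⁻¹ * w ∈ Subgroup.normalizer (H : Set G) := Subgroup.mem_normalizer_fintype fun n hn => h1 n hn
    have h3 : g = w * (g⁻¹ * w)⁻¹ := by group
    rw [h3, sup_comm]
    exact Subgroup.mul_mem_sup hw (inv_mem h2)
  · rw [eq_bot_iff]
    rintro y ⟨hy1, hy2⟩
    rw [Subgroup.mem_bot]
    apply hfix y hy2
    have hcomm : ∀ h ∈ H, y * h = h * y := by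
      intro h hh
      have h1 : y * h * y⁻¹ ∈ H := (Subgroup.mem_normalizer_iff.1 hy1 h).1 hh
      have h2 : y * h * y⁻¹ * h⁻¹ ∈ H := H.mul_mem h1 (H.inv_mem hh)
      have h3 : y * h * y⁻¹ * h⁻¹ ∈ Y := by
        have h4 := Y.mul_mem hy2 (hY.conj_mem _ (Y.inv_mem hy2) h)
        have h5 : y * (h * y⁻¹ * h⁻¹) = y * h * y⁻¹ * h⁻¹ := by group
        rwa [h5] at h4
      have h6 := hd _ h3 h2
      have h7 : y * h = y * h * y⁻¹ * h⁻¹ * (h * y) := by group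
      rw [h7, h6, one_mul]
    intro m hm
    obtain ⟨y', hy', h, hh, rfl⟩ := hs m hm
    rw [mul_assoc, ← hcomm h hh, ← mul_assoc, hab y' hy' y hy2, mul_assoc]

end H51.AG
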