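import Pool.Agent.H51.AG.Key
import Pool.Agent.H38.ML.Spec

/-!
# [H51 AG Twr] The derived group of a solvable normal subgroup `T` of `G` has a good tower, if the Sylow `q`-subgroups of `G` are
abelian for all `q` which divide its order

PROOF. `D 0 := T`, `D (i + 1) := ⁅D i, D i⁆` (subgroups of `G`, all normal in `G`), `D k = ⊥` for some `k` (solvable; if
`D (i + 1) = D i` then `D i = ⊥`). Call a normal subgroup `A` of `G` admissible if for some `i`
`D (i + 2) ≤ A ≤ D (i + 1)` and `A.relIndex (D (i + 1))` is prime to `(D (i + 2)).relIndex A`. `D 1 = ⁅T, T⁆` is admissible (`i = 0`).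
CLAIM: `GoodTower A` for every admissible `A`, by strong induction on `card A`. `A = ⊥`: tower of length `0`. If `A = D (i + 2) ≠ ⊥`
replace `i` by `i + 1` (the first index is then `1`). So let `E := D (i + 2) < A ≤ X := D (i + 1)`. Let `q` be a prime divisor of
`E.relIndex A`; `X / E` is abelian; let `R / E` be the set of its elements of order prime to `q`, i.e. `R = {x ∈ X : x ^ m ∈ E for some m`
prime to `q}` (a normal subgroup of `G`; use that `X / E` is abelian). `R.relIndex X` is a power of `q`, and it is the full `q`-part of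
`E.relIndex X`, `E.relIndex R` is prime to `q`. Since `q` does not divide `A.relIndex X`: `A ⊔ R = X`. `B := A ⊓ R`:
`B.relIndex A = R.relIndex X`, a power of `q`, not `1`, and `B` is admissible (same `i`): `B.relIndex X = A.relIndex X * B.relIndex A` and
`E.relIndex B = E.relIndex A / B.relIndex A` is prime to `q` and to `A.relIndex X`. The tower of `A` is `A` followed by the tower of `B`.
`⁅A, A⁆ ≤ ⁅X, X⁆ = E ≤ B`. Second alternative of `GoodTower`:
* complement: in `G ⧸ R` let `M := (D i).map (QuotientGroup.mk' R)`, then `⁅M, M⁆ = X.map (mk' R)` is a `q`-group and all `q`-subgroups of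
  `G ⧸ R` are abelian (`quot_abelian`), so `key` gives a complement, let `C` be its preimage in `G`: `C ⊔ A = ⊤` (as `A ⊔ R = X`,
  `R ≤ C`) and `C ⊓ A = R ⊓ A = B`. (`q` divides `card ⁅T, T⁆`, so `hS` applies to `q`.)
* `Z := {g : ∀ x ∈ X, g x g⁻¹ x⁻¹ ∈ R}` (the preimage of the centraliser of `X.map (mk' R)`). A Sylow `q`-subgroup `S` of `G` lies in `Z`:
  `S` is abelian, and `X = (S ⊓ X) R` because `S ⊓ X` is a Sylow `q`-subgroup of the normal subgroup `X` and `X / R` is a `q`-group (or: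
  `S.map (mk' R)` is a Sylow subgroup of `G ⧸ R`, so it contains the normal `q`-subgroup `X.map (mk' R)`, and it is abelian). So
  `Z.index` is prime to `q`. For `x ∈ A`, `g ∈ Z`: `g x g⁻¹ x⁻¹ ∈ R ⊓ A = B`.
-/

set_option autoImplicit false

namespace H51.AG

open H38.ML.Spec

open scoped commutatorElement

private theorem goodTower_cons {G : Type} [Group G] {A B : Subgroup G} (hBA : B ≤ A) (hBn : B.Normal)
    (hAA : ⁅A, A⁆ ≤ B) (hC : ∃ C : Subgroup G, C ⊔ A = ⊤ ∧ C ⊓ A = B)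
    (hZ : ∃ Z : Subgroup G, (∀ g ∈ Z, ∀ x ∈ A, g * x * g⁻¹ * x⁻¹ ∈ B) ∧ Nat.Coprime Z.index (B.relIndex A))
    (hB : GoodTower B) : GoodTower A := by
  obtain ⟨r, L, h0, hr, h⟩ := hB
  refine ⟨r + 1, fun i => Nat.casesOn i A (fun j => L j), rfl, hr, ?_⟩
  intro i hi
  cases i with
  | zero =>
    show L 0 ≤ A ∧ (L 0).Normal ∧ ⁅A, A⁆ ≤ L 0 ∧ (Nat.Coprime A.index ((L 0).relIndex A) ∨
      ((∃ C : Subgroup G, C ⊔ A = ⊤ ∧ C ⊓ A = L 0) ∧
        ∃ Z : Subgroup G, (∀ g ∈ Z, ∀ x ∈ A, g * x * g⁻¹ * x⁻¹ ∈ L 0) ∧ Nat.Coprime Z.index ((L 0).relIndex A)))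
    rw [h0]
    exact ⟨hBA, hBn, hAA, Or.inr ⟨hC, hZ⟩⟩
  | succ i => exact h i (by omega)

/-- the elements of `X` whose `m`-th power is in `⁅X, X⁆` -/
private def Rm {G : Type} [Group G] (X : Subgroup G) [hX : X.Normal] (m : ℕ) : Subgroup G where
  carrier := {x | x ∈ X ∧ x ^ m ∈ ⁅X, X⁆}
  one_mem' := ⟨X.one_mem, by rw [one_pow]; exact Subgroup.one_mem _⟩
  mul_mem' := by
    rintro x y ⟨hx, hx'⟩ ⟨hy, hy'⟩
    refine ⟨X.mul_mem hx hy, ?_⟩
    rw [← QuotientGroup.eq_one_iff] at hx' hy' ⊢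
    have hc : Commute (x : G ⧸ ⁅X, X⁆) (y : G ⧸ ⁅X, X⁆) := by
      show ((x * y : G) : G ⧸ ⁅X, X⁆) = ((y * x : G) : G ⧸ ⁅X, X⁆)
      rw [QuotientGroup.eq]
      have h1 := Subgroup.commutator_mem_commutator (X.inv_mem hy) (X.inv_mem hx)
      rw [commutatorElement_def, inv_inv, inv_inv] at h1
      have h2 : (x * y)⁻¹ * (y * x) = y⁻¹ * x⁻¹ * y * x := by group
      rw [h2]
      exact h1
    have h3 : (((x * y) ^ m : G) : G ⧸ ⁅X, X⁆) = ((x : G ⧸ ⁅X, X⁆) * (y : G ⧸ ⁅X, X⁆)) ^ m := rfl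
    rw [h3, hc.mul_pow]
    have h4 : (x : G ⧸ ⁅X, X⁆) ^ m = 1 := hx'
    have h5 : (y : G ⧸ ⁅X, X⁆) ^ m = 1 := hy'
    rw [h4, h5, one_mul]
  inv_mem' := by
    rintro x ⟨hx, hx'⟩
    refine ⟨X.inv_mem hx, ?_⟩
    rw [inv_pow]
    exact Subgroup.inv_mem _ hx'

private theorem mem_Rm {G : Type} [Group G] {X : Subgroup G} [hX : X.Normal] {m : ℕ} {x : G} :
    x ∈ Rm X m ↔ x ∈ X ∧ x ^ m ∈ ⁅X, X⁆ := Iff.rfl

private theorem Rm_normal {G : Type} [Group G] (X : Subgroup G) [hX : X.Normal] (m : ℕ) : (Rm X m).Normal := by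
  constructor
  rintro x ⟨hx, hx'⟩ g
  refine ⟨hX.conj_mem x hx g, ?_⟩
  rw [conj_pow]
  exact (inferInstance : (⁅X, X⁆ : Subgroup G).Normal).conj_mem _ hx' g

private theorem strict {G : Type} [Group G] [Finite G] (M A : Subgroup G) [M.Normal] [A.Normal]
    (hEA : ⁅⁅M, M⁆, ⁅M, M⁆⁆ < A) (hAX : A ≤ ⁅M, M⁆)
    (hco : Nat.Coprime (A.relIndex ⁅M, M⁆) ((⁅⁅M, M⁆, ⁅M, M⁆⁆ : Subgroup G).relIndex A))
    (hS : ∀ q : ℕ, q.Prime → q ∣ Nat.card (⁅M, M⁆ : Subgroup G) →
      ∀ Q : Subgroup G, IsPGroup q Q → ∀ x ∈ Q, ∀ y ∈ Q, x * y = y * x)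
    (ih : ∀ B : Subgroup G, B.Normal → Nat.card B < Nat.card A → ⁅⁅M, M⁆, ⁅M, M⁆⁆ ≤ B → B ≤ ⁅M, M⁆ →
      Nat.Coprime (B.relIndex ⁅M, M⁆) ((⁅⁅M, M⁆, ⁅M, M⁆⁆ : Subgroup G).relIndex B) → GoodTower B) :
    GoodTower A := by
  obtain ⟨X, hX⟩ : ∃ X : Subgroup G, X = ⁅M, M⁆ := ⟨_, rfl⟩
  have hXn : X.Normal := by rw [hX]; infer_instance
  rw [← hX] at hEA hAX hco hS ih
  obtain ⟨E, hE⟩ : ∃ E : Subgroup G, E = ⁅X, X⁆ := ⟨_, rfl⟩
  have hEn : E.Normal := by rw [hE]; infer_instance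
  rw [← hE] at hEA hco ih
  have hEX : E ≤ X := hEA.le.trans hAX
  have hne : E.relIndex A ≠ 1 := fun h1 => (not_le_of_gt hEA) (Subgroup.relIndex_eq_one.1 h1)
  obtain ⟨q, hq, hqA⟩ := Nat.exists_prime_and_dvd hne
  have : Fact q.Prime := ⟨hq⟩
  have hqX : q ∣ Nat.card X :=
    (hqA.trans (Subgroup.relIndex_dvd_card E A)).trans (Subgroup.card_dvd_of_le hAX)
  have hab := hS q hq hqX
  have hqA' : ¬ q ∣ A.relIndex X := by
    intro h1
    have h2 := Nat.dvd_gcd h1 hqA
    rw [hco] at h2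
    exact hq.one_lt.ne' (Nat.dvd_one.1 h2)
  -- the subgroup R
  have hn0 : E.relIndex X ≠ 0 := Subgroup.index_ne_zero_of_finite
  obtain ⟨a, m, hm, hnm⟩ := Nat.exists_eq_pow_mul_and_not_dvd hn0 q hq.ne_one
  obtain ⟨R, hR⟩ : ∃ R : Subgroup G, R = Rm X m := ⟨_, rfl⟩
  have hRn : R.Normal := by rw [hR]; exact Rm_normal X m
  have hRX : R ≤ X := by
    intro x hx
    rw [hR, mem_Rm] at hx
    exact hx.1
  have hER : E ≤ R := by
    intro x hx
    rw [hR, mem_Rm, ← hE]
    exact ⟨hEX hx, E.pow_mem hx m⟩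
  -- X / R is a q-group
  have hXR : IsPGroup q (X.map (QuotientGroup.mk' R)) := by
    rintro ⟨_, x, hx, rfl⟩
    refine ⟨a, ?_⟩
    apply Subtype.ext
    show ((x : G ⧸ R)) ^ q ^ a = 1
    have h1 : ((x ^ q ^ a : G) : G ⧸ R) = 1 := by
      rw [QuotientGroup.eq_one_iff, hR, mem_Rm, ← hE, ← pow_mul, ← hnm]
      exact ⟨X.pow_mem hx _, Subgroup.pow_relIndex_mem E hx⟩
    exact h1
  have hker : (QuotientGroup.mk' R).ker = R := QuotientGroup.ker_mk' R
  have hRX' : R.relIndex X = Nat.card (X.map (QuotientGroup.mk' R)) := by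
    have h1 := Subgroup.relIndex_ker (K := X) (QuotientGroup.mk' R)
    rwa [hker] at h1
  obtain ⟨s, hs⟩ : ∃ s : ℕ, R.relIndex X = q ^ s := by
    rw [hRX']
    exact IsPGroup.iff_card.1 hXR
  -- q does not divide the index of E in R
  have hqR : ¬ q ∣ E.relIndex R := by
    intro h1
    have h2 := Subgroup.relIndex_ker (K := R) (QuotientGroup.mk' E)
    rw [QuotientGroup.ker_mk'] at h2
    rw [h2] at h1
    obtain ⟨⟨_, x, hx, rfl⟩, hy⟩ := exists_prime_orderOf_dvd_card' q h1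
    have hx' : x ^ m ∈ E := by
      have h3 : x ∈ R := hx
      rw [hR, mem_Rm, ← hE] at h3
      exact h3.2
    apply hm
    rw [← hy]
    apply orderOf_dvd_of_pow_eq_one
    apply Subtype.ext
    show (x : G ⧸ E) ^ m = 1
    have h4 : ((x ^ m : G) : G ⧸ E) = 1 := (QuotientGroup.eq_one_iff _).2 hx'
    exact h4
  -- A R = X
  have hAR : A ⊔ R = X := by
    apply le_antisymm (sup_le hAX hRX)
    rw [← Subgroup.relIndex_eq_one]
    have h1 : (A ⊔ R).relIndex X ∣ A.relIndex X := by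
      rw [← Subgroup.relIndex_mul_relIndex A (A ⊔ R) X le_sup_left (sup_le hAX hRX)]
      exact Nat.dvd_mul_left _ _
    have h2 : (A ⊔ R).relIndex X ∣ q ^ s := by
      rw [← hs, ← Subgroup.relIndex_mul_relIndex R (A ⊔ R) X le_sup_right (sup_le hAX hRX)]
      exact Nat.dvd_mul_left _ _
    have h3 : Nat.Coprime (A.relIndex X) (q ^ s) := by
      apply Nat.Coprime.pow_right
      rw [Nat.coprime_comm]
      exact (Nat.Prime.coprime_iff_not_dvd hq).2 hqA'
    exact Nat.dvd_one.1 (by rw [← h3]; exact Nat.dvd_gcd h1 h2)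
  obtain ⟨B, hB⟩ : ∃ B : Subgroup G, B = A ⊓ R := ⟨_, rfl⟩
  have hBn : B.Normal := by rw [hB]; infer_instance
  have hBA : B ≤ A := by rw [hB]; exact inf_le_left
  have hBR : B ≤ R := by rw [hB]; exact inf_le_right
  have hEB : E ≤ B := by rw [hB]; exact le_inf hEA.le hER
  have hBAi : B.relIndex A = q ^ s := by
    rw [hB, Subgroup.inf_relIndex_left, ← Subgroup.relIndex_sup_right (H := A) (K := R), hAR, hs]
  have hEBA := Subgroup.relIndex_mul_relIndex E B A hEB hBA
  have hEBR := Subgroup.relIndex_mul_relIndex E B R hEB hBR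
  have hBAX := Subgroup.relIndex_mul_relIndex B A X hBA hAX
  have hs0 : s ≠ 0 := by
    rintro rfl
    rw [pow_zero, Subgroup.relIndex_eq_one] at hBAi
    have h1 : A ≤ R := hBAi.trans hBR
    apply hqR
    rw [← Subgroup.relIndex_mul_relIndex E A R hEA.le h1]
    exact Dvd.dvd.mul_right hqA _
  have hlt : B < A := by
    refine lt_of_le_of_ne hBA fun h1 => ?_
    rw [h1, Subgroup.relIndex_self] at hBAi
    have h2 := Nat.one_lt_pow hs0 hq.one_lt
    omega
  have hcard : Nat.card B < Nat.card A := by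
    have h1 : (B : Set G) ⊂ A := hlt
    exact Set.Finite.card_lt_card (Set.toFinite _) h1
  have hcoB : Nat.Coprime (B.relIndex X) (E.relIndex B) := by
    rw [← hBAX, hBAi]
    apply Nat.Coprime.mul_left
    · apply Nat.Coprime.pow_left
      rw [Nat.Prime.coprime_iff_not_dvd hq]
      intro h1
      apply hqR
      rw [← hEBR]
      exact Dvd.dvd.mul_right h1 _
    · apply Nat.Coprime.coprime_dvd_right _ hco
      rw [← hEBA]
      exact Nat.dvd_mul_right _ _
  have hGB := ih B hBn hcard hEB (hBA.trans hAX) hcoB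
  -- the commutator
  have hAA : ⁅A, A⁆ ≤ B := by
    refine (Subgroup.commutator_mono hAX hAX).trans ?_
    rw [← hE]
    exact hEB
  -- the quotient
  have hsurj : Function.Surjective (QuotientGroup.mk' R) := QuotientGroup.mk'_surjective R
  have habq := quot_abelian q hq (QuotientGroup.mk' R) hsurj hab
  have hcomap : (X.map (QuotientGroup.mk' R)).comap (QuotientGroup.mk' R) = X := by
    rw [Subgroup.comap_map_eq, hker]
    exact sup_eq_left.2 hRX
  have hXnq : (X.map (QuotientGroup.mk' R)).Normal := hXn.map _ hsurj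
  refine goodTower_cons hBA hBn hAA ?_ ?_ hGB
  · have hMn : (M.map (QuotientGroup.mk' R)).Normal := (inferInstance : M.Normal).map _ hsurj
    have hcm : ⁅M.map (QuotientGroup.mk' R), M.map (QuotientGroup.mk' R)⁆ = X.map (QuotientGroup.mk' R) := by
      rw [hX, Subgroup.map_commutator]
    obtain ⟨C, hC1, hC2⟩ := key q hq (M.map (QuotientGroup.mk' R)) (by rw [hcm]; exact hXR) habq
    rw [hcm] at hC1 hC2
    refine ⟨C.comap (QuotientGroup.mk' R), ?_, ?_⟩
    · have h1 : R ≤ C.comap (QuotientGroup.mk' R) := by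
        have := Subgroup.ker_le_comap (QuotientGroup.mk' R) C
        rwa [hker] at this
      have h2 : C.comap (QuotientGroup.mk' R) ⊔ X = ⊤ := by
        have h3 := Subgroup.comap_sup_eq (QuotientGroup.mk' R) C (X.map (QuotientGroup.mk' R)) hsurj
        rw [hcomap, hC1, Subgroup.comap_top] at h3
        exact h3
      rw [← h2, ← hAR]
      apply le_antisymm
      · exact sup_le_sup_left le_sup_left _
      · exact sup_le le_sup_left (sup_le le_sup_right (h1.trans le_sup_left))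
    · have h2 : C.comap (QuotientGroup.mk' R) ⊓ X = R := by
        have h3 := Subgroup.comap_inf C (X.map (QuotientGroup.mk' R)) (QuotientGroup.mk' R)
        rw [hcomap, hC2, MonoidHom.comap_bot, hker] at h3
        exact h3.symm
      rw [hB]
      calc C.comap (QuotientGroup.mk' R) ⊓ A = A ⊓ (C.comap (QuotientGroup.mk' R) ⊓ X) := by
            rw [inf_comm, inf_left_comm, inf_comm A X, inf_of_le_right hAX, inf_comm]
        _ = A ⊓ R := by rw [h2]
  · refine ⟨(Subgroup.centralizer (X.map (QuotientGroup.mk' R) : Set (G ⧸ R))).comap (QuotientGroup.mk' R), ?_, ?_⟩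
    · intro g hg x hx
      rw [hB]
      refine ⟨A.mul_mem ((inferInstance : A.Normal).conj_mem x hx g) (A.inv_mem hx), ?_⟩
      rw [Subgroup.mem_comap, Subgroup.mem_centralizer_iff] at hg
      have h1 := hg (QuotientGroup.mk' R x) ⟨x, hAX hx, rfl⟩
      show g * x * g⁻¹ * x⁻¹ ∈ R
      rw [← QuotientGroup.eq_one_iff]
      show (QuotientGroup.mk' R) (g * x * g⁻¹ * x⁻¹) = 1
      rw [map_mul, map_mul, map_mul, map_inv, map_inv, ← h1]
      group
    · rw [hBAi, Subgroup.index_comap_of_surjective _ hsurj]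
      apply Nat.Coprime.pow_right
      rw [Nat.coprime_comm, Nat.Prime.coprime_iff_not_dvd hq]
      intro h1
      obtain ⟨P⟩ := (inferInstance : Nonempty (Sylow q (G ⧸ R)))
      apply P.not_dvd_index
      refine h1.trans (Subgroup.index_dvd_of_le ?_)
      intro y hy
      rw [Subgroup.mem_centralizer_iff]
      intro z hz
      have hXP := IsPGroup.le_sylow_of_normal hXR P
      exact habq P P.isPGroup' z (hXP hz) y hy

private theorem main {G : Type} [Group G] [Finite G] (T : Subgroup G) (hsol : Group.IsSolvable T) (N : ℕ) :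
    ∀ (M A : Subgroup G), M.Normal → A.Normal → M ≤ T → Nat.card A = N →
      ⁅⁅M, M⁆, ⁅M, M⁆⁆ ≤ A → A ≤ ⁅M, M⁆ →
      Nat.Coprime (A.relIndex ⁅M, M⁆) ((⁅⁅M, M⁆, ⁅M, M⁆⁆ : Subgroup G).relIndex A) →
      (∀ q : ℕ, q.Prime → q ∣ Nat.card (⁅M, M⁆ : Subgroup G) →
        ∀ Q : Subgroup G, IsPGroup q Q → ∀ x ∈ Q, ∀ y ∈ Q, x * y = y * x) → GoodTower A := by
  induction N using Nat.strong_induction_on with
  | _ N IH =>
    intro M A hM hA hMT hcard hEA hAX hco hS
    have hst : ∀ M' : Subgroup G, M'.Normal → M' ≤ T → ⁅⁅M', M'⁆, ⁅M', M'⁆⁆ < A → A ≤ ⁅M', M'⁆ →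
        Nat.Coprime (A.relIndex ⁅M', M'⁆) ((⁅⁅M', M'⁆, ⁅M', M'⁆⁆ : Subgroup G).relIndex A) →
        (∀ q : ℕ, q.Prime → q ∣ Nat.card (⁅M', M'⁆ : Subgroup G) →
          ∀ Q : Subgroup G, IsPGroup q Q → ∀ x ∈ Q, ∀ y ∈ Q, x * y = y * x) → GoodTower A := by
      intro M' hM' hM'T h1 h2 h3 h4
      refine strict M' A h1 h2 h3 h4 fun B hB hBc h5 h6 h7 => ?_
      exact IH (Nat.card B) (by rw [← hcard]; exact hBc) M' B hM' hB hM'T rfl h5 h6 h7 h4
    rcases eq_or_ne A ⊥ with h0 | h0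
    · subst h0
      exact ⟨0, fun _ => ⊥, rfl, rfl, fun i hi => absurd hi (Nat.not_lt_zero i)⟩
    rcases hEA.eq_or_lt with h1 | h1
    · -- A = E
      have hXT : ⁅M, M⁆ ≤ T := (Subgroup.commutator_le_left M M).trans hMT
      have hAT : A ≤ T := hAX.trans hXT
      have hlt : ⁅A, A⁆ < A := by
        have hsA : Group.IsSolvable A := Group.isSolvable_of_isSolvable_injective (Subgroup.inclusion_injective hAT)
        have hnt : Nontrivial A := (Subgroup.nontrivial_iff_ne_bot A).2 h0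
        have h2 := Group.IsSolvable.commutator_lt_top_of_nontrivial A
        have h3 : (⊤ : Subgroup A).map A.subtype = A := by
          rw [← MonoidHom.range_eq_map, Subgroup.range_subtype]
        have h4 : Subgroup.map A.subtype (⁅(⊤ : Subgroup A), (⊤ : Subgroup A)⁆ : Subgroup A) = ⁅A, A⁆ := by
          rw [Subgroup.map_commutator, h3]
        refine lt_of_le_of_ne (Subgroup.commutator_le_left A A) fun h5 => h2.ne ?_
        apply Subgroup.map_injective A.subtype_injective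
        show Subgroup.map A.subtype (⁅(⊤ : Subgroup A), (⊤ : Subgroup A)⁆ : Subgroup A) = _
        rw [h4, h5, h3]
      refine hst ⁅M, M⁆ inferInstance hXT ?_ ?_ ?_ ?_
      · rw [h1]
        exact hlt
      · rw [h1]
      · rw [h1, Subgroup.relIndex_self]
        exact Nat.coprime_one_left _
      · intro q hq hqd
        refine hS q hq (hqd.trans (Subgroup.card_dvd_of_le ?_))
        exact Subgroup.commutator_le_left _ _
    · exact hst M hM hMT h1 hAX hco hS

theorem goodTower_derived {G : Type} [Group G] [Finite G] (T : Subgroup G) [T.Normal] (hsol : Group.IsSolvable T)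
    (hS : ∀ q : ℕ, q.Prime → q ∣ Nat.card (⁅T, T⁆ : Subgroup G) →
      ∀ Q : Subgroup G, IsPGroup q Q → ∀ x ∈ Q, ∀ y ∈ Q, x * y = y * x) :
    GoodTower (⁅T, T⁆ : Subgroup G) := by
  refine main T hsol (Nat.card (⁅T, T⁆ : Subgroup G)) T ⁅T, T⁆ inferInstance inferInstance le_rfl rfl
    (Subgroup.commutator_le_left _ _) le_rfl ?_ hS
  rw [Subgroup.relIndex_self]
  exact Nat.coprime_one_left _

end H51.AG
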